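import Pool.Agent.Helper58.LC.Goals

/-!
# Packet LC-INS (project LC, MP_957450_co): insertion of an element next to another one
-/

set_option autoImplicit false

namespace Pool.Agent.Helper22.LC.INS

open Pool.Agent.Helper58.LC

theorem base {J : Type} (g : J → Bool) (j j' : J) (l : List J) :
    ch g (j' :: j :: l) ≤ ch g (j' :: l) + 2 * (if g j = g j' then 0 else 1) := by
  rcases l with _ | ⟨d, l⟩
  · simp only [ch]
    by_cases h : g j = g j'
    · rw [if_pos h.symm, if_pos h]
    · rw [if_neg (fun e => h e.symm), if_neg h]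
      omega
  · simp only [ch]
    by_cases h : g j = g j'
    · rw [if_pos h.symm, if_pos h, h]
      omega
    · rw [if_neg (fun e => h e.symm), if_neg h]
      split_ifs <;> omega

theorem step {J : Type} (g : J → Bool) (j j' : J) (l : List J) : ∀ l1 : List J,
    ch g (l1 ++ j' :: j :: l) ≤
      ch g (l1 ++ j' :: l) + 2 * (if g j = g j' then 0 else 1)
  | [] => base g j j' l
  | [c] => by
    have h := base g j j' l
    simp only [List.cons_append, List.nil_append]
    have e1 : ch g (c :: j' :: j :: l) = (if g c = g j' then 0 else 1) + ch g (j' :: j :: l) := rfl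
    have e2 : ch g (c :: j' :: l) = (if g c = g j' then 0 else 1) + ch g (j' :: l) := rfl
    rw [e1, e2]
    omega
  | c :: d :: l1 => by
    have h := step g j j' l (d :: l1)
    simp only [List.cons_append] at h ⊢
    have e1 : ch g (c :: d :: (l1 ++ j' :: j :: l)) =
      (if g c = g d then 0 else 1) + ch g (d :: (l1 ++ j' :: j :: l)) := rfl
    have e2 : ch g (c :: d :: (l1 ++ j' :: l)) =
      (if g c = g d then 0 else 1) + ch g (d :: (l1 ++ j' :: l)) := rfl
    rw [e1, e2]
    omega

theorem t : INS := by
  intro J l j j' h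
  obtain ⟨l1, l2, rfl⟩ := List.append_of_mem h
  refine ⟨l1 ++ j' :: j :: l2, ?_, fun g => step g j j' l2 l1⟩
  have h1 : (l1 ++ [j'] ++ j :: l2).Perm (j :: (l1 ++ [j'] ++ l2)) := List.perm_middle
  simpa using h1

end Pool.Agent.Helper22.LC.INS
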